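import Mathlib
import Pool.Agent.Helper427.WRTDefs
import Pool.Agent.Helper427.DjDefs
import Pool.Agent.Helper427.DjFlat
import Pool.Agent.Helper427.Dj6
import Pool.Agent.Helper427.Flat4

set_option autoImplicit false

open WRT

namespace Pool.Agent.Results.MP_27a476_gt.AmphichiralSum

/-- G = SU(2), M = L(5,2) # L(5,1) # -L(5,1) (surgery along the split union of the chains [3, 2], [5] and
[-5]), Z_k(M) = tau_r(M) / tau_r(S^1 x S^2).
1. Every flat connection on M has exactly one of the Chern-Simons values 0, 1/5, 2/5, 3/5, 4/5, and each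
of these values occurs.
2. Z_k(M) has an expansion (E), and every expansion (E) of Z_k(M) has d_0 = 1/2.
3. On the set M_0 of flat connections of Chern-Simons value 0 the largest value of h^1 - h^0 is 3; it is
attained precisely on the nonempty Zariski open subset of M_0 where no generator of the fundamental group
Z/5 * Z/5 * Z/5 has trace 2. So the predicted exponent is 3/2, not 1/2. -/
theorem result :
    (chainFraction [3, 2] = (5, 2) ∧ chainFraction [5] = (5, 1) ∧ chainFraction [-5] = (-5, 1) ∧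
      chainFraction [0] = (0, 1)) ∧
    (∀ ρ : PiOne →* SUtwo, ∃! j : Fin 5, HasCS ρ ((j : ℕ) / 5)) ∧
    (∀ j : Fin 5, ∃ ρ : PiOne →* SUtwo, HasCS ρ ((j : ℕ) / 5)) ∧
    (∃ d I v a, IsExpansion (fun r => tauSum 2 r [[3, 2], [5], [-5]] / tauSum 2 r [[0]]) 4
      (fun j => (j : ℕ) / 5) d I v a) ∧
    (∀ d I v a, IsExpansion (fun r => tauSum 2 r [[3, 2], [5], [-5]] / tauSum 2 r [[0]]) 4
      (fun j => (j : ℕ) / 5) d I v a → d 0 = 1 / 2) ∧
    (∀ ρ : PiOne →* SUtwo, HasCS ρ 0 → h1 ρ - h0 ρ ≤ 3 ∧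
      (h1 ρ - h0 ρ = 3 ↔ ∀ i, (ρ (gen i)).1.trace ≠ 2)) ∧
    (∃ ρ : PiOne →* SUtwo, HasCS ρ 0 ∧ h1 ρ - h0 ρ = 3) := by
  have hZ : (fun r => tauSum 2 r [[3, 2], [5], [-5]] / tauSum 2 r [[0]]) = SU2.ZM := by
    funext r
    simp [tauSum, SU2.ZM, mul_assoc]
  refine ⟨⟨by decide, by decide, by decide, by decide⟩, cs_unique, cs_occurs, ?_, ?_, fun ρ _ => ?_, ?_⟩
  · rw [hZ]
    obtain ⟨a, ha⟩ := SU2.expansion_exists
    exact ⟨_, _, _, a, ha⟩
  · rw [hZ]
    intro d I v a h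
    exact SU2.exponent_unique d I v a h
  · rw [h0_eq, h1_eq]
    exact ⟨hone_le ρ, hone_eq_iff ρ⟩
  · obtain ⟨ρ, h2, h3⟩ := generic_exists
    exact ⟨ρ, h2, by rw [h0_eq, h1_eq]; exact h3⟩

end Pool.Agent.Results.MP_27a476_gt.AmphichiralSum
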